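import Pool.Agent.helper4.GA.Spec
import Pool.Agent.helper32.Cant.Basic
import Pool.Agent.helper44.Cant.GEO

/-!
# Row ga:WI1 (MP_3c0a64_an)
-/

set_option autoImplicit false

namespace Pool.Agent.GA

open Finset
open Pool.Agent.helper32.Cant

theorem WI1_mu {n : ℕ} (c : Cfg n) (hG : c.G = univ) (z : Sp n) :
    mu c z = 1 / (6 ^ n * 3 ^ (2 * n)) := by
  unfold mu
  rw [if_pos (by rw [hG]; exact mem_univ _), hG, Finset.card_univ]
  have h1 : Fintype.card (Fin (3 ^ n) × Word n) = 3 ^ n * 2 ^ n := by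
    rw [Fintype.card_prod, Fintype.card_fin]
    simp
  rw [h1]
  push_cast
  rw [← mul_pow]
  norm_num

theorem WI1_bR {n : ℕ} (c : Cfg n) (z : Sp n) : bR c 0 z = 1 := by
  unfold bR
  rw [Nat.sub_zero]
  refine Nat.div_eq_of_lt_le ?_ ?_
  · rw [one_mul]
    exact c.lo _
  · exact c.hi _

theorem WI1_sum {n : ℕ} (z : Sp n) (f : Sp n → ℝ) (g : Fin (3 ^ n) → ℝ)
    (h : ∀ y, f y = ind (y.2 = z.2 ∧ y.1.2 = z.1.2) * g y.1.1) : ∑ y, f y = ∑ x, g x := by
  have : NeZero (3 ^ (2 * n)) := ⟨pow_ne_zero _ (by norm_num)⟩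
  rw [Fintype.sum_prod_type, Fintype.sum_prod_type]
  refine Finset.sum_congr rfl fun x _ => ?_
  rw [Finset.sum_eq_single z.1.2, Finset.sum_eq_single z.2]
  · rw [h, ind_of ⟨rfl, rfl⟩, one_mul]
  · intro τ _ hτ
    rw [h, ind_of_not (fun h1 => hτ h1.1), zero_mul]
  · intro h1
    exact absurd (mem_univ _) h1
  · intro w _ hw
    refine Finset.sum_eq_zero fun τ _ => ?_
    rw [h, ind_of_not (fun h1 => hw h1.2), zero_mul]
  · intro h1
    exact absurd (mem_univ _) h1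

theorem WI1_ind_mul (p q : Prop) : ind (p ∧ q) = ind p * ind q := by
  by_cases hp : p
  · by_cases hq : q
    · rw [ind_of ⟨hp, hq⟩, ind_of hp, ind_of hq, one_mul]
    · rw [ind_of_not (fun h => hq h.2), ind_of_not hq, mul_zero]
  · rw [ind_of_not (fun h => hp h.1), ind_of_not hp, zero_mul]

theorem WI1_obs {n : ℕ} (c : Cfg n) (κ : ℕ) (y z : Sp n) :
    ind (obs c κ 0 y = obs c κ 0 z) = ind (y.2 = z.2 ∧ y.1.2 = z.1.2) *
      ind (cell n κ (uv c (z.2, z.1.2) y.1.1) = cell n κ (uu c z)) := by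
  rw [← WI1_ind_mul]
  refine ind_congr ?_
  unfold obs
  rw [Prod.mk.injEq, Prod.mk.injEq, Prod.mk.injEq, WI1_bR, WI1_bR]
  constructor
  · rintro ⟨h1, h2, h3, -⟩
    refine ⟨⟨h1, h2⟩, ?_⟩
    rw [← h3, ← h1, ← h2]
    rfl
  · rintro ⟨⟨h1, h2⟩, h3⟩
    refine ⟨h1, h2, ?_, rfl⟩
    rw [← h3, ← h1, ← h2]
    rfl

theorem WI1_pm {n : ℕ} (c : Cfg n) (hG : c.G = univ) (κ : ℕ) (z : Sp n) :
    pm (mu c) (obs c κ 0) z =
      1 / (6 ^ n * 3 ^ (2 * n)) * ac c κ (z.2, z.1.2) (cell n κ (uu c z)) := by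
  unfold pm ac
  rw [Finset.mul_sum]
  refine WI1_sum z _ _ fun y => ?_
  rw [WI1_mu c hG, WI1_obs]
  ring

theorem WI1_pm1 {n : ℕ} (c : Cfg n) (hG : c.G = univ) (κ : ℕ) (z : Sp n) :
    pm (mu c) (fun y : Sp n => (y.2, y.1.2, cell n κ (uu c y))) z =
      1 / (6 ^ n * 3 ^ (2 * n)) * ac c κ (z.2, z.1.2) (cell n κ (uu c z)) := by
  rw [← WI1_pm c hG]
  refine congrFun (pm_congr fun y y' => ?_) z
  unfold obs
  rw [Prod.mk.injEq, Prod.mk.injEq, Prod.mk.injEq, Prod.mk.injEq, Prod.mk.injEq, WI1_bR, WI1_bR]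
  simp

theorem WI1_pm2 {n : ℕ} (c : Cfg n) (hG : c.G = univ) (z : Sp n) :
    pm (mu c) (fun y : Sp n => (y.2, y.1.2)) z = 1 / (6 ^ n * 3 ^ (2 * n)) * 3 ^ n := by
  unfold pm
  rw [WI1_sum z _ (fun _ => 1 / (6 ^ n * 3 ^ (2 * n))) (fun y => ?_)]
  · rw [Finset.sum_const, Finset.card_univ, Fintype.card_fin, nsmul_eq_mul, mul_comm]
    push_cast
    rfl
  · rw [WI1_mu c hG, mul_comm]
    congr 1
    exact ind_congr (Prod.mk.injEq _ _ _ _ ▸ Iff.rfl)

theorem WI1_ce {n : ℕ} (c : Cfg n) (hG : c.G = univ) (k A : ℕ) (hA : A ≤ k) (hk : k + 1 ≤ n)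
    (z : Sp n) (m : ℕ) :
    ce (mu c) (obs c (k - A) 0) (fun y => ind (cell n (k + 1) (uu c y) = m)) z =
      (if m / 3 ^ (A + 1) = cell n (k - A) (uu c z) then ac c (k + 1) (z.2, z.1.2) m else 0) /
        ac c (k - A) (z.2, z.1.2) (cell n (k - A) (uu c z)) := by
  have hw : (1 : ℝ) / (6 ^ n * 3 ^ (2 * n)) ≠ 0 := by positivity
  unfold ce
  rw [WI1_pm c hG]
  refine Eq.trans ?_ (mul_div_mul_left _ _ hw)
  congr 1
  have h1 : (1 : ℝ) / (6 ^ n * 3 ^ (2 * n)) *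
      (if m / 3 ^ (A + 1) = cell n (k - A) (uu c z) then ac c (k + 1) (z.2, z.1.2) m else 0) =
      ∑ x, 1 / (6 ^ n * 3 ^ (2 * n)) *
        (if m / 3 ^ (A + 1) = cell n (k - A) (uu c z) then
          ind (cell n (k + 1) (uv c (z.2, z.1.2) x) = m) else 0) := by
    rw [← Finset.mul_sum]
    congr 1
    split_ifs
    · rfl
    · rw [Finset.sum_const_zero]
  rw [h1]
  refine WI1_sum z _ _ fun y => ?_
  rw [WI1_mu c hG, WI1_obs]
  have h2 : ind (y.2 = z.2 ∧ y.1.2 = z.1.2) * ind (cell n (k + 1) (uu c y) = m) =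
      ind (y.2 = z.2 ∧ y.1.2 = z.1.2) * ind (cell n (k + 1) (uv c (z.2, z.1.2) y.1.1) = m) := by
    by_cases h : y.2 = z.2 ∧ y.1.2 = z.1.2
    · rw [← h.1, ← h.2]
      rfl
    · rw [ind_of_not h, zero_mul, zero_mul]
  have h3 : ind (cell n (k - A) (uv c (z.2, z.1.2) y.1.1) = cell n (k - A) (uu c z)) *
      ind (cell n (k + 1) (uv c (z.2, z.1.2) y.1.1) = m) =
      (if m / 3 ^ (A + 1) = cell n (k - A) (uu c z) then
          ind (cell n (k + 1) (uv c (z.2, z.1.2) y.1.1) = m) else 0) := by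
    have h4 : cell n (k - A) (uv c (z.2, z.1.2) y.1.1) =
        cell n (k + 1) (uv c (z.2, z.1.2) y.1.1) / 3 ^ (A + 1) := by
      rw [cell_div (k := k - A) (k' := k + 1) (by omega) (by omega)]
      congr 2
      omega
    by_cases h5 : cell n (k + 1) (uv c (z.2, z.1.2) y.1.1) = m
    · rw [h4, h5]
      split_ifs with h6
      · rw [ind_of h6, one_mul]
      · rw [ind_of_not h6, zero_mul]
    · rw [ind_of_not h5, mul_zero]
      split_ifs <;> rfl
  calc 1 / (6 ^ n * 3 ^ (2 * n)) * (ind (y.2 = z.2 ∧ y.1.2 = z.1.2) *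
        ind (cell n (k - A) (uv c (z.2, z.1.2) y.1.1) = cell n (k - A) (uu c z))) *
        ind (cell n (k + 1) (uu c y) = m)
      = 1 / (6 ^ n * 3 ^ (2 * n)) *
        ind (cell n (k - A) (uv c (z.2, z.1.2) y.1.1) = cell n (k - A) (uu c z)) *
        (ind (y.2 = z.2 ∧ y.1.2 = z.1.2) * ind (cell n (k + 1) (uu c y) = m)) := by ring
    _ = ind (y.2 = z.2 ∧ y.1.2 = z.1.2) * (1 / (6 ^ n * 3 ^ (2 * n)) *
        (ind (cell n (k - A) (uv c (z.2, z.1.2) y.1.1) = cell n (k - A) (uu c z)) *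
        ind (cell n (k + 1) (uv c (z.2, z.1.2) y.1.1) = m))) := by rw [h2]; ring
    _ = _ := by rw [h3]


/-- reindexing the pairs `(t, a)` -/
theorem WI1_reindex (k A q : ℕ) (f : ℕ → ℝ) (hf : ∀ j, 0 ≤ f j) :
    ∑ t ∈ range (3 ^ k), ∑ a ∈ range 2, (if t / 3 ^ A = q then f (3 * t + a) else 0) ≤
      ∑ m ∈ range (3 ^ (A + 1) - 1), f (3 ^ (A + 1) * q + m) := by
  have h1 : ∑ m ∈ range (3 ^ (A + 1) - 1), f (3 ^ (A + 1) * q + m) =
      ∑ j ∈ Ico (3 ^ (A + 1) * q) (3 ^ (A + 1) * q + (3 ^ (A + 1) - 1)), f j := by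
    rw [Finset.sum_Ico_eq_sum_range, Nat.add_sub_cancel_left]
  have h2 : ∑ t ∈ range (3 ^ k), ∑ a ∈ range 2, (if t / 3 ^ A = q then f (3 * t + a) else 0) =
      ∑ x ∈ ((range (3 ^ k)) ×ˢ (range 2)).filter (fun x => x.1 / 3 ^ A = q), f (3 * x.1 + x.2) := by
    rw [Finset.sum_filter, Finset.sum_product]
  have h3 : ∑ x ∈ ((range (3 ^ k)) ×ˢ (range 2)).filter (fun x => x.1 / 3 ^ A = q), f (3 * x.1 + x.2) =
      ∑ j ∈ (((range (3 ^ k)) ×ˢ (range 2)).filter (fun x => x.1 / 3 ^ A = q)).image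
        (fun x => 3 * x.1 + x.2), f j := by
    rw [Finset.sum_image]
    intro x hx y hy hxy
    rw [Finset.mem_coe, Finset.mem_filter, Finset.mem_product, Finset.mem_range, Finset.mem_range] at hx hy
    have h4 : 3 * x.1 + x.2 = 3 * y.1 + y.2 := hxy
    ext <;> omega
  rw [h1, h2, h3]
  refine Finset.sum_le_sum_of_subset_of_nonneg ?_ fun j _ _ => hf j
  intro j hj
  rw [Finset.mem_image] at hj
  obtain ⟨x, hx, rfl⟩ := hj
  rw [Finset.mem_filter, Finset.mem_product, Finset.mem_range, Finset.mem_range] at hx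
  obtain ⟨⟨-, hx2⟩, hx3⟩ := hx
  have h5 := Nat.div_add_mod x.1 (3 ^ A)
  have h6 := Nat.mod_lt x.1 (show 0 < 3 ^ A by positivity)
  rw [hx3] at h5
  rw [Finset.mem_Ico, pow_succ]
  generalize 3 ^ A = P at *
  generalize x.1 % P = r at *
  have h7 : P * 3 * q = 3 * (P * q) := by ring
  rw [h7]
  generalize P * q = Q at *
  constructor
  · omega
  · omega

theorem WI1_Uf {n : ℕ} (c : Cfg n) (hG : c.G = univ) (k A : ℕ) (hA : A ≤ k) (hk : k + 1 ≤ n)
    (z : Sp n) :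
    Uf c (obs c (k - A) 0) k z ≤
      (∑ m ∈ range (3 ^ (A + 1) - 1),
        |ac c (k + 1) (z.2, z.1.2) (3 ^ (A + 1) * cell n (k - A) (uu c z) + m)
          - ac c (k + 1) (z.2, z.1.2) (3 ^ (A + 1) * cell n (k - A) (uu c z) + m + 1)|) /
        ac c (k - A) (z.2, z.1.2) (cell n (k - A) (uu c z)) := by
  have h0 : 0 ≤ ac c (k - A) (z.2, z.1.2) (cell n (k - A) (uu c z)) :=
    Finset.sum_nonneg fun x _ => ind_nonneg _
  have h1 := WI1_reindex k A (cell n (k - A) (uu c z))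
    (fun j => |ac c (k + 1) (z.2, z.1.2) j - ac c (k + 1) (z.2, z.1.2) (j + 1)|)
    (fun j => abs_nonneg _)
  refine le_trans (le_of_eq ?_) (div_le_div_of_nonneg_right h1 h0)
  unfold Uf
  rw [Finset.sum_div]
  refine Finset.sum_congr rfl fun t _ => ?_
  rw [Finset.sum_div]
  refine Finset.sum_congr rfl fun a ha => ?_
  rw [Finset.mem_range] at ha
  rw [WI1_ce c hG k A hA hk, WI1_ce c hG k A hA hk, ← sub_div, abs_div, abs_of_nonneg h0]
  congr 1
  have h2 : (3 * t + a) / 3 ^ (A + 1) = t / 3 ^ A := by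
    rw [pow_succ', ← Nat.div_div_eq_div_mul]
    congr 1
    omega
  have h3 : (3 * t + a + 1) / 3 ^ (A + 1) = t / 3 ^ A := by
    rw [pow_succ', ← Nat.div_div_eq_div_mul]
    congr 1
    omega
  rw [h2, h3]
  split_ifs
  · rfl
  · rw [sub_zero, abs_zero]

theorem WI1_Lam {n : ℕ} (c : Cfg n) (hG : c.G = univ) (hn : 1 ≤ n) (k A : ℕ) (hk : k + 1 ≤ n)
    (S : ℝ) (z : Sp n) (h : Lam c (S / n) A k z) :
    Real.exp S * 3 ^ (n - (k - A)) ≤ ac c (k - A) (z.2, z.1.2) (cell n (k - A) (uu c z)) := by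
  have hn0 : (n : ℝ) ≠ 0 := by
    have : (0 : ℝ) < n := by exact_mod_cast hn
    exact this.ne'
  have h1 := h.1
  rw [div_mul_cancel₀ _ hn0] at h1
  unfold lam at h1
  rw [WI1_pm1 c hG, WI1_pm2 c hG] at h1
  have hw : (0 : ℝ) < 1 / (6 ^ n * 3 ^ (2 * n)) := by positivity
  have h3 : (3 : ℝ) ^ n = 3 ^ (k - A) * 3 ^ (n - (k - A)) := by
    rw [← pow_add]
    congr 1
    omega
  have h2 : (3 : ℝ) ^ (k - A) * (1 / (6 ^ n * 3 ^ (2 * n)) *
      ac c (k - A) (z.2, z.1.2) (cell n (k - A) (uu c z))) / (1 / (6 ^ n * 3 ^ (2 * n)) * 3 ^ n) =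
      ac c (k - A) (z.2, z.1.2) (cell n (k - A) (uu c z)) / 3 ^ (n - (k - A)) := by
    rw [h3]
    field_simp
  rw [h2] at h1
  have h4 : 1 ≤ ac c (k - A) (z.2, z.1.2) (cell n (k - A) (uu c z)) := by
    have h5 := Finset.single_le_sum
      (f := fun x => ind (cell n (k - A) (uv c (z.2, z.1.2) x) = cell n (k - A) (uu c z)))
      (fun x _ => ind_nonneg _) (mem_univ z.1.1)
    rw [ind_of (show cell n (k - A) (uv c (z.2, z.1.2) z.1.1) = cell n (k - A) (uu c z) from rfl)] at h5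
    exact h5
  have h6 : 0 < ac c (k - A) (z.2, z.1.2) (cell n (k - A) (uu c z)) / 3 ^ (n - (k - A)) := by
    positivity
  have h7 := Real.exp_le_exp.2 h1
  rw [Real.exp_log h6, le_div_iff₀ (by positivity)] at h7
  exact h7

theorem WI1_total {n : ℕ} (H : Fin (3 ^ n) → St n → ℝ) [NeZero (3 ^ (2 * n))] :
    ∑ z : Sp n, H z.1.1 (z.2, z.1.2) = ∑ p : St n, ∑ x, H x p := by
  rw [Fintype.sum_prod_type, Fintype.sum_prod_type, Finset.sum_comm (s := (univ : Finset (St n)))]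
  refine Finset.sum_congr rfl fun x _ => ?_
  rw [Fintype.sum_prod_type, Finset.sum_comm]

theorem WI1 : WI1_stmt := by
  intro n c k A S hn hG hA hk
  have hNZ : NeZero (3 ^ (2 * n)) := ⟨pow_ne_zero _ (by norm_num)⟩
  have hw : (0 : ℝ) ≤ 1 / (6 ^ n * 3 ^ (2 * n)) := by positivity
  obtain ⟨B, hB⟩ : ∃ B : St n → ℕ → ℝ, B = fun p q => ∑ m ∈ range (3 ^ (A + 1) - 1),
      |ac c (k + 1) p (3 ^ (A + 1) * q + m) - ac c (k + 1) p (3 ^ (A + 1) * q + m + 1)| := ⟨_, rfl⟩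
  have hB0 : ∀ p q, 0 ≤ B p q := by
    intro p q
    rw [hB]
    exact Finset.sum_nonneg fun m _ => abs_nonneg _
  have hac0 : ∀ p q, 0 ≤ ac c (k - A) p q := fun p q => Finset.sum_nonneg fun x _ => ind_nonneg _
  obtain ⟨I, hI⟩ : ∃ I : St n → ℕ → ℝ, I = fun p q =>
      ind (Real.exp S * 3 ^ (n - (k - A)) ≤ ac c (k - A) p q) := ⟨_, rfl⟩
  have hI0 : ∀ p q, 0 ≤ I p q := by
    intro p q
    rw [hI]
    exact ind_nonneg _
  obtain ⟨h, hh⟩ : ∃ h : St n → ℕ → ℝ, h = fun p q => B p q / ac c (k - A) p q * I p q := ⟨_, rfl⟩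
  have h1 : ex (mu c) (fun z => Uf c (obs c (k - A) 0) k z * ind (Lam c (S / n) A k z)) ≤
      ∑ z : Sp n, (fun (x : Fin (3 ^ n)) (p : St n) => 1 / (6 ^ n * 3 ^ (2 * n)) *
        h p (cell n (k - A) (uv c p x))) z.1.1 (z.2, z.1.2) := by
    unfold ex
    refine Finset.sum_le_sum fun z _ => ?_
    rw [WI1_mu c hG]
    refine mul_le_mul_of_nonneg_left ?_ hw
    rw [hh]
    have h2 := WI1_Uf c hG k A hA hk z
    have h3 : ind (Lam c (S / n) A k z) ≤ I (z.2, z.1.2) (cell n (k - A) (uu c z)) := by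
      rw [hI]
      by_cases h4 : Lam c (S / n) A k z
      · have h5 := WI1_Lam c hG hn k A hk S z h4
        exact le_trans (ind_le_one _) (le_of_eq (ind_of h5).symm)
      · rw [ind_of_not h4]
        exact ind_nonneg _
    have h6 : Uf c (obs c (k - A) 0) k z ≤
        B (z.2, z.1.2) (cell n (k - A) (uu c z)) / ac c (k - A) (z.2, z.1.2) (cell n (k - A) (uu c z)) := by
      rw [hB]
      exact h2
    exact mul_le_mul h6 h3 (ind_nonneg _) (div_nonneg (hB0 _ _) (hac0 _ _))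
  refine h1.trans ?_
  rw [WI1_total (fun (x : Fin (3 ^ n)) (p : St n) => 1 / (6 ^ n * 3 ^ (2 * n)) *
        h p (cell n (k - A) (uv c p x)))]
  rw [Finset.sum_div]
  refine Finset.sum_le_sum fun p _ => ?_
  rw [← Finset.mul_sum, mul_comm (1 / (6 ^ n * 3 ^ (2 * n)) : ℝ), mul_one_div]
  refine div_le_div_of_nonneg_right ?_ (by positivity)
  have h2 : ∑ x, h p (cell n (k - A) (uv c p x)) =
      ∑ q ∈ range (3 ^ (k - A)), ac c (k - A) p q * h p q := by
    have h3 : ∀ x, h p (cell n (k - A) (uv c p x)) =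
        ∑ q ∈ range (3 ^ (k - A)), ind (cell n (k - A) (uv c p x) = q) * h p q := by
      intro x
      rw [Finset.sum_eq_single (cell n (k - A) (uv c p x))]
      · rw [ind_of rfl, one_mul]
      · intro q _ hq
        rw [ind_of_not (fun h4 => hq h4.symm), zero_mul]
      · intro h4
        exact absurd (Finset.mem_range.2 (cell_lt (by omega) _)) h4
    rw [Finset.sum_congr rfl fun x _ => h3 x, Finset.sum_comm]
    refine Finset.sum_congr rfl fun q _ => ?_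
    rw [← Finset.sum_mul]
    rfl
  rw [h2]
  refine Finset.sum_le_sum fun q _ => ?_
  have h4 : ac c (k - A) p q * h p q ≤ I p q * B p q := by
    rw [hh]
    rcases (hac0 p q).eq_or_lt with h5 | h5
    · rw [← h5, zero_mul]
      exact mul_nonneg (hI0 p q) (hB0 p q)
    · refine le_of_eq ?_
      field_simp
  refine h4.trans (le_of_eq ?_)
  rw [hI, hB]

end Pool.Agent.GA
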